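import Pool.Agent.Helper346.CdP.Defs
import Pool.Agent.Helper346.Cd.CA
import Pool.Agent.Helper346.Cd.CD

set_option autoImplicit false

open MvPolynomial

namespace Pool.Agent.Helper346.CdP

open Pool.Agent.Helper346.Cd

variable {p : ℕ} [hp : Fact p.Prime]



theorem diff_map {G M M' : Type*} [AddCommGroup M] [AddCommGroup M'] (φ : M →+ M') (q : ℕ)
    (f : (Fin (q + 1) → G) → M) (x : Fin (q + 2) → G) :
    diff q (fun y => φ (f y)) x = φ (diff q f x) := by
  unfold diff
  rw [map_sum]
  exact Finset.sum_congr rfl fun j _ => (map_zsmul φ _ _).symm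

theorem diff_sub {G M : Type*} [AddCommGroup M] (q : ℕ) (f g : (Fin (q + 1) → G) → M)
    (x : Fin (q + 2) → G) :
    diff q (fun y => f y - g y) x = diff q f x - diff q g x := by
  unfold diff
  rw [← Finset.sum_sub_distrib]
  exact Finset.sum_congr rfl fun j _ => smul_sub _ _ _

theorem IsCochain.diff {G M : Type*} [Group G] [TopologicalSpace G] [AddCommGroup M]
    [DistribMulAction G M] {q : ℕ} {f : (Fin (q + 1) → G) → M} (hf : IsCochain q f) :
    IsCochain (q + 1) (diff q f) := by
  constructor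
  · rw [IsLocallyConstant.iff_eventually_eq]
    intro x
    have h1 : ∀ j : Fin (q + 2), ∀ᶠ y in nhds x,
        f (fun i => y (j.succAbove i)) = f (fun i => x (j.succAbove i)) := by
      intro j
      have hc : Continuous (fun y : Fin (q + 2) → G => fun i => y (j.succAbove i)) :=
        continuous_pi fun i => continuous_apply _
      exact (IsLocallyConstant.iff_eventually_eq _).1 (hf.1.comp_continuous hc) x
    filter_upwards [Filter.eventually_all.2 h1] with y hy
    unfold Pool.Agent.Helper346.Cd.diff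
    exact Finset.sum_congr rfl fun j _ => by rw [hy j]
  · intro g x
    unfold Pool.Agent.Helper346.Cd.diff
    rw [Finset.smul_sum]
    refine Finset.sum_congr rfl fun j _ => ?_
    rw [hf.2 g (fun i => x (j.succAbove i)), smul_comm]

theorem vanish_trivial_prime {k K : Type*} [Field k] [Field K] [Algebra k K] [IsGalois k K]
    [CharP k p] [IsSepClosed K] (N : Type*) [AddCommGroup N] [DistribMulAction Gal(K/k) N]
    (htriv : ∀ (g : Gal(K/k)) (n : N), g • n = n) (e : N ≃+ ZMod p) (q : ℕ) (hq : 1 ≤ q) :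
    HSuccVanishes Gal(K/k) N q := by
  haveI : CharP K p := charP_of_injective_algebraMap (algebraMap k K).injective p
  obtain ⟨q₀, rfl⟩ : ∃ q₀, q = q₀ + 1 := ⟨q - 1, by omega⟩
  intro f hf hdf
  -- the embedding
  let ι : N →+ K := (ZMod.castHom (dvd_refl p) K).toAddMonoidHom.comp e.toAddMonoidHom
  have hιdef : ∀ n, ι n = ZMod.castHom (dvd_refl p) K (e n) := fun _ => rfl
  have hιinj : Function.Injective ι := by
    intro a b hab
    rw [hιdef, hιdef] at hab
    exact e.injective ((ZMod.castHom (dvd_refl p) K).injective hab)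
  have hιfix : ∀ (σ : Gal(K/k)) (n : N), σ • ι n = ι n := by
    intro σ n
    rw [hιdef, AlgEquiv.smul_def]
    have : ((σ : K →+* K).comp (ZMod.castHom (dvd_refl p) K)) = ZMod.castHom (dvd_refl p) K :=
      Subsingleton.elim _ _
    exact congrArg (fun φ : ZMod p →+* K => φ (e n)) this
  have hι3 : ∀ n : N, (ι n) ^ p = ι n := by
    intro n
    rw [hιdef, ← map_pow]
    congr 1
    exact ZMod.pow_card (e n)
  have hιsurj : ∀ x : K, x ^ p = x → ∃ n : N, ι n = x := by
    intro x hx
    have hx' : x ∈ (⊥ : Subfield K) := (Subfield.mem_bot_iff_pow_eq_self K p).2 hx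
    have hx2 : x ∈ (ZMod.castHom (dvd_refl p) K).fieldRange :=
      (bot_le : (⊥ : Subfield K) ≤ (ZMod.castHom (dvd_refl p) K).fieldRange) hx'
    obtain ⟨z, hz⟩ := RingHom.mem_fieldRange.1 hx2
    exact ⟨e.symm z, by rw [hιdef, AddEquiv.apply_symm_apply, hz]⟩
  -- the Artin-Schreier map
  let P : K →+ K :=
    { toFun := fun x => x ^ p - x
      map_zero' := by simp [hp.out.ne_zero]
      map_add' := by
        intro x y
        rw [add_pow_char x y p]
        ring }
  have hPdef : ∀ x, P x = x ^ p - x := fun _ => rfl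
  have hPσ : ∀ (σ : Gal(K/k)) (x : K), P (σ • x) = σ • P x := by
    intro σ x
    rw [hPdef, hPdef, AlgEquiv.smul_def, AlgEquiv.smul_def, map_sub, map_pow]
  have hPsurj : ∀ y : K, ∃ x, P x = y := by
    intro y
    obtain ⟨x, hx⟩ := IsSepClosed.exists_root_C_mul_X_pow_add_C_mul_X_add_C' (k := K) p p
      (1 : K) (-1) (-y) (dvd_refl p) hp.out.two_le (by norm_num)
    refine ⟨x, ?_⟩
    rw [hPdef]
    linear_combination hx
  choose s hs using hPsurj
  -- the cocycle with values in `K`
  have hιf : IsCochain (q₀ + 1 + 1) (fun x => ι (f x)) := by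
    constructor
    · exact hf.1.comp ι
    · intro g x
      show ι (f (fun i => g * x i)) = g • ι (f x)
      rw [hf.2 g x, htriv, hιfix]
  have hdιf : diff (q₀ + 1 + 1) (fun x => ι (f x)) = 0 := by
    funext x
    rw [diff_map, hdf]
    simp
  obtain ⟨g, hg, hdg⟩ := vanish_separableClosure (k := k) (K := K) (q₀ + 1) _ hιf hdιf
  have hPg : IsCochain (q₀ + 1) (fun x => P (g x)) := by
    constructor
    · exact hg.1.comp P
    · intro σ x
      show P (g (fun i => σ * x i)) = σ • P (g x)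
      rw [hg.2 σ x, hPσ]
  have hdPg : diff (q₀ + 1) (fun x => P (g x)) = 0 := by
    funext x
    rw [diff_map, hdg, hPdef, hι3, sub_self]
    rfl
  obtain ⟨h, hh, hdh⟩ := vanish_separableClosure (k := k) (K := K) q₀ _ hPg hdPg
  -- lifting through `P`
  have hdisc : ∀ (w : K) (x : Fin (q₀ + 1) → Gal(K/k)),
      ∀ᶠ y in nhds x, (y 0) • w = (x 0) • w := by
    intro w x
    have h1 := stabilizer_isOpen_of_isIntegral (K := k) (L := K) w
    have h2 : Continuous (fun y : Fin (q₀ + 1) → Gal(K/k) => (x 0)⁻¹ * y 0) := by fun_prop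
    have h3 := (h1.preimage h2).mem_nhds (x := x) (by simp)
    filter_upwards [h3] with y hy
    have h4 : ((x 0)⁻¹ * y 0) • w = w := hy
    rw [mul_smul, inv_smul_eq_iff] at h4
    exact h4
  have hdisc' : ∀ (w : K) (x : Fin (q₀ + 1) → Gal(K/k)),
      ∀ᶠ y in nhds x, (y 0)⁻¹ • w = (x 0)⁻¹ • w := by
    intro w x
    have h1 := stabilizer_isOpen_of_isIntegral (K := k) (L := K) w
    have h2 : Continuous (fun y : Fin (q₀ + 1) → Gal(K/k) => x 0 * (y 0)⁻¹) := by fun_prop
    have h3 := (h1.preimage h2).mem_nhds (x := x) (by simp)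
    filter_upwards [h3] with y hy
    have h4 : (x 0 * (y 0)⁻¹) • w = w := hy
    rw [mul_smul] at h4
    rw [eq_inv_smul_iff]
    exact h4
  have hh1 : IsCochain q₀ (fun x : Fin (q₀ + 1) → Gal(K/k) => x 0 • s ((x 0)⁻¹ • h x)) := by
    constructor
    · rw [IsLocallyConstant.iff_eventually_eq]
      intro x
      filter_upwards [(IsLocallyConstant.iff_eventually_eq _).1 hh.1 x, hdisc' (h x) x,
        hdisc (s ((x 0)⁻¹ • h x)) x] with y h1 h2 h3
      rw [h1, h2, h3]
    · intro σ x
      show (σ * x 0) • s ((σ * x 0)⁻¹ • h (fun i => σ * x i)) = σ • (x 0 • s ((x 0)⁻¹ • h x))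
      rw [hh.2 σ x, mul_inv_rev, mul_smul (x 0)⁻¹, inv_smul_smul, mul_smul]
  have hPh1 : ∀ x : Fin (q₀ + 1) → Gal(K/k), P (x 0 • s ((x 0)⁻¹ • h x)) = h x := by
    intro x
    rw [hPσ, hs, smul_inv_smul]
  have hdh1 := Pool.Agent.Helper346.CdP.IsCochain.diff hh1
  -- the corrected cochain
  have hg1 : ∀ x, ∃ n : N, ι n = g x -
      diff q₀ (fun x : Fin (q₀ + 1) → Gal(K/k) => x 0 • s ((x 0)⁻¹ • h x)) x := by
    intro x
    apply hιsurj
    rw [← sub_eq_zero, ← hPdef, map_sub, ← diff_map]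
    have h1 : (fun y : Fin (q₀ + 1) → Gal(K/k) => P (y 0 • s ((y 0)⁻¹ • h y))) = h :=
      funext hPh1
    rw [h1, hdh, sub_self]
  choose g2 hg2 using hg1
  refine ⟨g2, ⟨?_, ?_⟩, ?_⟩
  · rw [IsLocallyConstant.iff_eventually_eq]
    intro x
    filter_upwards [(IsLocallyConstant.iff_eventually_eq _).1 hg.1 x,
      (IsLocallyConstant.iff_eventually_eq _).1 hdh1.1 x] with y h1 h2
    apply hιinj
    rw [hg2, hg2, h1, h2]
  · intro σ x
    apply hιinj
    rw [htriv, hg2, hg2, hg.2 σ x, hdh1.2 σ x, ← smul_sub, ← hg2, hιfix]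
  · funext x
    apply hιinj
    rw [← diff_map]
    have h1 : (fun y => ι (g2 y)) = fun y => g y -
      diff q₀ (fun x : Fin (q₀ + 1) → Gal(K/k) => x 0 • s ((x 0)⁻¹ • h x)) y := funext hg2
    rw [h1, diff_sub, hdg, diff_diff]
    simp

end Pool.Agent.Helper346.CdP
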