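import Pool.Agent.Helper346.CdP.Defs

set_option autoImplicit false

open MvPolynomial

namespace Pool.Agent.Helper346.CdP

open Pool.Agent.Helper346.Cd

variable {p : ℕ} [hp : Fact p.Prime]



lemma gp_sep {F L : Type} [Field F] [Field L] [Algebra F L] [FiniteDimensional F L] [CharP F p]
    (h : ¬ p ∣ Module.finrank F L) : Algebra.IsSeparable F L := by
  have : Fact (Nat.Prime p) := ⟨hp.out⟩
  have : ExpChar F p := ExpChar.prime hp.out
  rw [isSeparable_iff_finInsepDegree_eq_one]
  obtain ⟨n, hn⟩ := finInsepDegree_eq_pow F L p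
  have h1 := Field.finSepDegree_mul_finInsepDegree F L
  rcases Nat.eq_zero_or_pos n with h0 | h0
  · rw [hn, h0, pow_zero]
  · exfalso
    apply h
    rw [← h1, hn]
    exact Dvd.dvd.mul_left (dvd_pow_self p h0.ne') _

lemma gp_unit_iff {E Γ : Type} [Field E] [LinearOrderedCommGroupWithZero Γ] (v : Valuation E Γ)
    (z : v.valuationSubring) : z ∈ IsLocalRing.maximalIdeal v.valuationSubring ↔
      v (z : E) < 1 := by
  rw [IsLocalRing.mem_maximalIdeal, mem_nonunits_iff]
  constructor
  · intro h
    refine lt_of_le_of_ne z.2 (fun h1 => h ?_)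
    have hz0 : (z : E) ≠ 0 := by
      intro h2
      rw [h2, map_zero] at h1
      exact zero_ne_one h1
    refine IsUnit.of_mul_eq_one (⟨(z : E)⁻¹, ?_⟩ : v.valuationSubring) ?_
    · rw [Valuation.mem_valuationSubring_iff, map_inv₀, h1, inv_one]
    · ext
      simp [hz0]
  · intro h hu
    obtain ⟨w, hw⟩ := hu.exists_right_inv
    have h1 : v (z : E) * v (w : E) = 1 := by
      rw [← map_mul]
      have := congrArg (fun t : v.valuationSubring => v (t : E)) hw
      simpa using this
    have h2 : v (w : E) ≤ 1 := w.2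
    have h3 : v (z : E) * v (w : E) < 1 := by
      calc v (z : E) * v (w : E) ≤ v (z : E) * 1 := mul_le_mul_right h2 _
        _ = v (z : E) := mul_one _
        _ < 1 := h
    exact absurd h1 h3.ne

open IsDedekindDomain in
lemma gp_approx {S E : Type} [CommRing S] [IsDedekindDomain S] [Field E] [Algebra S E]
    [IsFractionRing S E] (v : HeightOneSpectrum S) (z : E) (hz : v.valuation E z ≤ 1) :
    ∃ s : S, v.valuation E (z - algebraMap S E s) < 1 := by
  obtain ⟨a, b, hb, rfl⟩ := IsFractionRing.div_surjective (A := S) z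
  have hb0 : b ≠ 0 := nonZeroDivisors.ne_zero hb
  have hbE : algebraMap S E b ≠ 0 := by
    simpa using hb0
  have hbv : 0 < v.valuation E (algebraMap S E b) := by
    rw [zero_lt_iff]
    exact (Valuation.ne_zero_iff _).2 hbE
  obtain ⟨n, hn⟩ : ∃ n : ℕ, v.intValuation b = WithZero.exp (-(n : ℤ)) := by
    have h1 : v.intValuation b ≠ 0 := v.intValuation_ne_zero b hb0
    have h2 : v.intValuation b ≤ 1 := v.intValuation_le_one b
    obtain ⟨m, hm⟩ : ∃ m : ℤ, v.intValuation b = WithZero.exp m :=
      ⟨WithZero.log (v.intValuation b), (WithZero.exp_log h1).symm⟩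
    rw [hm, ← WithZero.exp_zero, WithZero.exp_le_exp] at h2
    refine ⟨m.natAbs, ?_⟩
    rw [hm]
    congr 1
    omega
  have hb1 : b ∈ v.asIdeal ^ n := by
    rw [← v.intValuation_le_pow_iff_mem, hn]
  have hb2 : b ∉ v.asIdeal ^ (n + 1) := by
    rw [← v.intValuation_le_pow_iff_mem, hn, WithZero.exp_le_exp]
    push_cast
    omega
  have ha : a ∈ v.asIdeal ^ n := by
    rw [← v.intValuation_le_pow_iff_mem, ← hn, ← v.valuation_of_algebraMap (K := E),
      ← v.valuation_of_algebraMap (K := E)]
    rw [map_div₀, div_le_one₀ hbv] at hz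
    exact hz
  obtain ⟨d, e, he, hde⟩ := Ideal.exists_mul_add_mem_pow_succ v.ne_bot b a hb1 hb2 ha
  refine ⟨d, ?_⟩
  have h3 : algebraMap S E a / algebraMap S E b - algebraMap S E d =
      algebraMap S E e / algebraMap S E b := by
    rw [← hde, map_add, map_mul]
    field_simp
    ring
  rw [h3, map_div₀, div_lt_one₀ hbv, v.valuation_of_algebraMap, v.valuation_of_algebraMap, hn]
  refine lt_of_le_of_lt ((v.intValuation_le_pow_iff_mem e (n + 1)).2 he) ?_
  rw [WithZero.exp_lt_exp]
  push_cast
  omega

/-- the prime `(X)` -/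
noncomputable def gpP (κ : Type) [Field κ] : Ideal (Polynomial κ) :=
  RingHom.ker (Polynomial.evalRingHom (0 : κ))

instance gpP_max (κ : Type) [Field κ] : (gpP κ).IsMaximal :=
  RingHom.ker_isMaximal_of_surjective _ (fun x => ⟨Polynomial.C x, by simp⟩)

lemma gp_prime {κ S : Type} [Field κ] [CommRing S] [IsDomain S] [Algebra (Polynomial κ) S]
    [Module.Finite (Polynomial κ) S] [Module.IsTorsionFree (Polynomial κ) S]
    (h : ¬ p ∣ Module.finrank (Polynomial κ) S) :
    ∃ P : Ideal S, ∃ _ : P.IsPrime, ∃ _ : P.LiesOver (gpP κ),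
      ¬ p ∣ Module.finrank (Polynomial κ ⧸ gpP κ) (S ⧸ P) := by
  by_contra hcon
  push Not at hcon
  apply h
  let : Fintype ((gpP κ).primesOver S) :=
    (Algebra.QuasiFinite.finite_primesOver (gpP κ)).fintype
  rw [← Ideal.sum_ramification_inertia_eq_finrank (gpP κ) S]
  refine Finset.dvd_sum (fun q _ => ?_)
  have := q.2.1
  have := q.2.2
  have : q.1.IsMaximal := Ideal.IsMaximal.of_liesOver_isMaximal q.1 (gpP κ)
  rw [Ideal.inertiaDeg_eq_of_isMaximal (gpP κ) q.1]
  exact Dvd.dvd.mul_left (hcon q.1 q.2.1 q.2.2) _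

lemma gp_res_sep {κ S l : Type} [Field κ] [CharP κ p] [CommRing S] [Algebra (Polynomial κ) S]
    [Field l] [Algebra κ l] (P : Ideal S) [P.LiesOver (gpP κ)] (φ : S →+* l)
    (hs : Function.Surjective φ) (hk : RingHom.ker φ = P)
    (hc : ∀ a : κ, φ (algebraMap (Polynomial κ) S (Polynomial.C a)) = algebraMap κ l a)
    (hf : ¬ p ∣ Module.finrank (Polynomial κ ⧸ gpP κ) (S ⧸ P)) : Algebra.IsSeparable κ l := by
  have he : Module.finrank (Polynomial κ ⧸ gpP κ) (S ⧸ P) = Module.finrank κ l := by
    refine Algebra.finrank_eq_of_equiv_equiv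
      (RingHom.quotientKerEquivOfSurjective (f := Polynomial.evalRingHom (0 : κ))
        (fun x => ⟨Polynomial.C x, by simp⟩))
      ((Ideal.quotEquivOfEq hk.symm).trans (RingHom.quotientKerEquivOfSurjective hs)) ?_
    refine RingHom.ext (fun x => ?_)
    obtain ⟨f, rfl⟩ := Ideal.Quotient.mk_surjective x
    change algebraMap κ l (f.eval 0) = φ (algebraMap (Polynomial κ) S f)
    have h1 : f - Polynomial.C (f.eval 0) ∈ gpP κ := by
      change Polynomial.eval 0 (f - Polynomial.C (f.eval 0)) = 0
      simp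
    have h2 : algebraMap (Polynomial κ) S (f - Polynomial.C (f.eval 0)) ∈ RingHom.ker φ := by
      rw [hk]
      exact (Ideal.mem_of_liesOver P (gpP κ) _).1 h1
    rw [RingHom.mem_ker, map_sub, map_sub, sub_eq_zero] at h2
    rw [h2, hc]
  rw [he] at hf
  have : FiniteDimensional κ l := by
    apply Module.finite_of_finrank_pos
    rcases Nat.eq_zero_or_pos (Module.finrank κ l) with h0 | h0
    · rw [h0] at hf
      exact absurd (dvd_zero p) hf
    · exact h0
  exact gp_sep hf


theorem exists_good_place {κ E : Type} [Field κ] [Field E] [CharP κ p]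
    (K : Type) [Field K] [Algebra (Polynomial κ) K] [IsFractionRing (Polynomial κ) K]
    [Algebra K E] [FiniteDimensional K E] (h3 : ¬ p ∣ Module.finrank K E)
    (ι : κ →+* E) (c : E)
    (hι : ∀ a : κ, ι a = algebraMap K E (algebraMap (Polynomial κ) K (Polynomial.C a)))
    (hc : c = algebraMap K E (algebraMap (Polynomial κ) K Polynomial.X)) :
    ∃ (O : ValuationSubring E) (l : Type) (_ : Field l) (_ : Algebra κ l) (r : O →+* l),
      Algebra.IsSeparable κ l ∧ (∀ z : O, r z = 0 ↔ z ∉ {u : O | IsUnit u}) ∧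
      (∀ a : κ, ∃ h : ι a ∈ O, r ⟨ι a, h⟩ = algebraMap κ l a) ∧
      ∃ h : c ∈ O, r ⟨c, h⟩ = 0 := by
  classical
  letI : Algebra (Polynomial κ) E :=
    ((algebraMap K E).comp (algebraMap (Polynomial κ) K)).toAlgebra
  have hRE : ∀ f : Polynomial κ, algebraMap (Polynomial κ) E f =
    algebraMap K E (algebraMap (Polynomial κ) K f) := fun _ => rfl
  have : IsScalarTower (Polynomial κ) K E := IsScalarTower.of_algebraMap_eq (fun _ => rfl)
  have : CharP K p := charP_of_injective_algebraMap (IsFractionRing.injective (Polynomial κ) K) p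
  have : Algebra.IsSeparable K E := gp_sep h3
  have hinjE : Function.Injective (algebraMap (Polynomial κ) E) :=
    (algebraMap K E).injective.comp (IsFractionRing.injective (Polynomial κ) K)
  have : FaithfulSMul (Polynomial κ) E := (faithfulSMul_iff_algebraMap_injective _ _).2 hinjE
  have : Module.IsTorsionFree (Polynomial κ) E := inferInstance
  let S := integralClosure (Polynomial κ) E
  have : IsDedekindDomain S := integralClosure.isDedekindDomain (Polynomial κ) K E
  have : IsFractionRing S E := integralClosure.isFractionRing_of_finite_extension K E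
  have : Module.Finite (Polynomial κ) S := IsIntegralClosure.finite (Polynomial κ) K E S
  have hrank : Module.finrank (Polynomial κ) S = Module.finrank K E :=
    IsIntegralClosure.rank (Polynomial κ) K E S
  obtain ⟨P, hP, hPo, hPf⟩ := gp_prime (κ := κ) (S := S) (by rw [hrank]; exact h3)
  have hXP : algebraMap (Polynomial κ) S Polynomial.X ∈ P := by
    refine (Ideal.mem_of_liesOver P (gpP κ) _).1 ?_
    change Polynomial.eval 0 Polynomial.X = 0
    simp
  have hSE : ∀ f : Polynomial κ, algebraMap S E (algebraMap (Polynomial κ) S f) =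
    algebraMap K E (algebraMap (Polynomial κ) K f) := fun _ => rfl
  have hP0 : P ≠ ⊥ := by
    intro h0
    rw [h0, Ideal.mem_bot] at hXP
    have h1 := hSE Polynomial.X
    rw [hXP, map_zero, ← hRE] at h1
    exact Polynomial.X_ne_zero (hinjE (h1.symm.trans (map_zero _).symm))
  let v : IsDedekindDomain.HeightOneSpectrum S := ⟨P, hP, hP0⟩
  have hmem : ∀ s : S, algebraMap S E s ∈ (v.valuation E).valuationSubring :=
    fun s => v.valuation_le_one s
  let ψ : S →+* (v.valuation E).valuationSubring :=
    (algebraMap S E).codRestrict (v.valuation E).valuationSubring hmem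
  let φ : S →+* IsLocalRing.ResidueField (v.valuation E).valuationSubring :=
    (IsLocalRing.residue (v.valuation E).valuationSubring).comp ψ
  letI : Algebra κ (IsLocalRing.ResidueField (v.valuation E).valuationSubring) :=
    (φ.comp ((algebraMap (Polynomial κ) S).comp Polynomial.C)).toAlgebra
  have hφs : Function.Surjective φ := by
    intro y
    obtain ⟨z, rfl⟩ := IsLocalRing.residue_surjective y
    obtain ⟨s, hs⟩ := gp_approx v (z : E) z.2
    refine ⟨s, ?_⟩
    have h1 : z - ψ s ∈ IsLocalRing.maximalIdeal (v.valuation E).valuationSubring :=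
      (gp_unit_iff (v.valuation E) _).2 hs
    have h2 := (IsLocalRing.residue_eq_zero_iff _).2 h1
    rw [map_sub, sub_eq_zero] at h2
    exact h2.symm
  have hφk : RingHom.ker φ = P := by
    ext s
    rw [RingHom.mem_ker]
    change IsLocalRing.residue _ (ψ s) = 0 ↔ s ∈ P
    rw [IsLocalRing.residue_eq_zero_iff, gp_unit_iff]
    exact v.valuation_lt_one_iff_mem s
  refine ⟨(v.valuation E).valuationSubring,
    IsLocalRing.ResidueField (v.valuation E).valuationSubring, inferInstance, inferInstance,
    IsLocalRing.residue _, ?_, ?_, ?_, ?_⟩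
  · exact gp_res_sep P φ hφs hφk (fun a => rfl) hPf
  · intro z
    rw [IsLocalRing.residue_eq_zero_iff, IsLocalRing.mem_maximalIdeal, mem_nonunits_iff]
    rfl
  · intro a
    have h1 : ι a = algebraMap S E (algebraMap (Polynomial κ) S (Polynomial.C a)) := hι a
    refine ⟨h1 ▸ hmem _, ?_⟩
    change _ = φ (algebraMap (Polynomial κ) S (Polynomial.C a))
    change _ = IsLocalRing.residue _ (ψ _)
    congr 1
    exact Subtype.ext h1
  · have h1 : c = algebraMap S E (algebraMap (Polynomial κ) S Polynomial.X) := hc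
    refine ⟨h1 ▸ hmem _, ?_⟩
    have h2 : φ (algebraMap (Polynomial κ) S Polynomial.X) = 0 := by
      rw [← RingHom.mem_ker, hφk]; exact hXP
    rw [← h2]
    change _ = IsLocalRing.residue _ (ψ _)
    congr 1
    exact Subtype.ext h1

end Pool.Agent.Helper346.CdP
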