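import Pool.Agent.Helper346.CdP.Defs

set_option autoImplicit false

open MvPolynomial

namespace Pool.Agent.Helper346.CdP

theorem hom_scale {σ R S : Type*} [CommRing R] [CommRing S] {G : MvPolynomial σ R} {n : ℕ}
    (hG : G.IsHomogeneous n) (φ : R →+* S) (u : S) (x : σ → S) :
    eval₂ φ (fun i => u * x i) G = u ^ n * eval₂ φ x G := by
  rw [eval₂_eq, eval₂_eq, Finset.mul_sum]
  refine Finset.sum_congr rfl fun d hd => ?_
  have h1 : ∑ i ∈ d.support, d i = n := by
    have := hG (mem_support_iff.1 hd)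
    rw [Finsupp.weight_apply, Finsupp.sum] at this
    simpa using this
  simp only [mul_pow]
  rw [Finset.prod_mul_distrib, Finset.prod_pow_eq_pow_sum, h1]
  ring

theorem CL_basis {κ l : Type*} [Field κ] [Field l] {p : ℕ} [hp : Fact p.Prime] [CharP κ p] [Algebra κ l]
    [Algebra.IsSeparable κ l] {m : ℕ} (a : Fin m → κ)
    (ha : ∀ y : Fin m → κ, ∑ i, a i * y i ^ p = 0 → y = 0) (z : Fin m → l)
    (hz : ∑ i, algebraMap κ l (a i) * z i ^ p = 0) : z = 0 := by
  classical
  haveI : CharP l p := charP_of_injective_algebraMap (algebraMap κ l).injective p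
  haveI : ExpChar κ p := ExpChar.prime hp.out
  let W : Submodule κ l := Submodule.span κ (Set.range z)
  haveI : FiniteDimensional κ W := FiniteDimensional.span_of_finite κ (Set.finite_range z)
  let b := Module.finBasis κ W
  have hb : LinearIndependent κ (fun j => (b j : l)) :=
    b.linearIndependent.map' W.subtype W.ker_subtype
  have hb3 := hb.map_pow_expChar_pow_of_isSeparable p 1
  have hmem : ∀ i, z i ∈ W := fun i => Submodule.subset_span ⟨i, rfl⟩
  obtain ⟨w, hw⟩ : ∃ w : Fin m → Fin (Module.finrank κ W) → κ,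
      ∀ i, z i = ∑ j, w i j • (b j : l) := by
    refine ⟨fun i j => b.repr ⟨z i, hmem i⟩ j, fun i => ?_⟩
    have h := congrArg (fun v : W => (v : l)) (b.sum_repr ⟨z i, hmem i⟩)
    simp only [AddSubmonoidClass.coe_finset_sum, Submodule.coe_smul] at h
    exact h.symm
  have h1 : ∑ j, (∑ i, a i * w i j ^ p) • (b j : l) ^ p ^ 1 = 0 := by
    rw [← hz]
    simp only [Finset.sum_smul]
    rw [Finset.sum_comm]
    apply Finset.sum_congr rfl
    intro i _
    rw [hw i, sum_pow_char, Finset.mul_sum]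
    apply Finset.sum_congr rfl
    intro j _
    rw [smul_pow, Algebra.smul_def, Algebra.smul_def, map_mul, pow_one]
    ring
  have h2 := Fintype.linearIndependent_iff.1 hb3 _ h1
  funext i
  rw [hw i, Pi.zero_apply]
  apply Finset.sum_eq_zero
  intro j _
  have h3 := ha (fun i => w i j) (h2 j)
  have h4 := congrFun h3 i
  simp only [Pi.zero_apply] at h4
  rw [h4, zero_smul]


theorem anisotropic_of_place {κ E l : Type*} [Field κ] [Field E] [Field l] {p : ℕ}
    [hp : Fact p.Prime] [CharP κ p]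
    [Algebra κ l] [Algebra.IsSeparable κ l] (n : ℕ) (a : Fin (n + 1) → κ)
    (ha : ∀ y : Fin (n + 1) → κ, ∑ i, a i * y i ^ p = 0 → y = 0)
    (ι : κ →+* E) (c : E) (O : ValuationSubring E) (r : O →+* l)
    (hι : ∀ a : κ, ∃ h : ι a ∈ O, r ⟨ι a, h⟩ = algebraMap κ l a)
    (hc : ∃ h : c ∈ O, r ⟨c, h⟩ = 0) (G : MvPolynomial (Fin (n + 1)) ℤ) (hG : G.IsHomogeneous p)
    (x : Fin (n + 1) → E) (hx : x ≠ 0) :
    ∑ i, ι (a i) * x i ^ p + c * aeval x G ≠ 0 := by
  intro hsum
  obtain ⟨i0, -, hmax⟩ := Finset.exists_max_image (Finset.univ : Finset (Fin (n + 1)))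
    (fun i => O.valuation (x i)) Finset.univ_nonempty
  have hx0 : x i0 ≠ 0 := by
    intro h0
    apply hx
    funext i
    have h1 := hmax i (Finset.mem_univ i)
    rw [h0, map_zero, le_zero_iff, map_eq_zero] at h1
    exact h1
  have hy : ∀ i, x i / x i0 ∈ O := by
    intro i
    rw [← O.valuation_le_one_iff, map_div₀]
    have hv : O.valuation (x i0) ≠ 0 := (map_ne_zero _).2 hx0
    exact (div_le_one₀ (zero_lt_iff.2 hv)).2 (hmax i (Finset.mem_univ i))
  choose hιO hιr using hι
  obtain ⟨hcO, hcr⟩ := hc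
  let y : Fin (n + 1) → O := fun i => ⟨x i / x i0, hy i⟩
  have hGy : ((aeval y G : O) : E) = aeval x G / x i0 ^ p := by
    have h1 : ((aeval y G : O) : E) = aeval (fun i => x i / x i0) G := by
      have := MvPolynomial.aeval_algebraMap_apply (A := O) (B := E) y G
      exact this.symm
    rw [h1]
    have h2 : (fun i => x i / x i0) = (fun i => (x i0)⁻¹ * x i) := by
      funext i
      rw [div_eq_inv_mul]
    have h3 : aeval (fun i => (x i0)⁻¹ * x i) G = (x i0)⁻¹ ^ p * aeval x G := by
      rw [aeval_def, aeval_def]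
      exact hom_scale hG (algebraMap ℤ E) (x i0)⁻¹ x
    rw [h2, h3, div_eq_inv_mul, inv_pow]
  have hO : ∑ i, (⟨ι (a i), hιO (a i)⟩ : O) * y i ^ p + (⟨c, hcO⟩ : O) * aeval y G = 0 := by
    apply Subtype.ext
    push_cast
    rw [hGy]
    have h1 : ∑ i, ι (a i) * ((y i : O) : E) ^ p = (∑ i, ι (a i) * x i ^ p) / x i0 ^ p := by
      rw [Finset.sum_div]
      apply Finset.sum_congr rfl
      intro i _
      show ι (a i) * (x i / x i0) ^ p = _
      rw [div_pow, mul_div_assoc]
    rw [h1, mul_div_assoc', ← add_div, hsum, zero_div]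
  have hr0 := congrArg r hO
  simp only [map_add, map_sum, map_mul, map_pow, map_zero, hcr, zero_mul, add_zero, hιr] at hr0
  have hz := CL_basis a ha (fun i => r (y i)) hr0
  have h1 := congrFun hz i0
  have h2 : y i0 = 1 := by
    apply Subtype.ext
    exact div_self hx0
  simp only [h2, map_one, Pi.zero_apply] at h1
  exact one_ne_zero h1

end Pool.Agent.Helper346.CdP
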