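import Pool.Agent.Helper346.CdP.Defs

set_option autoImplicit false

open MvPolynomial

namespace Pool.Agent.Helper346.CdP

theorem indep_powers (p : ℕ) [hp : Fact p.Prime] (n : ℕ)
    (y : Fin (n + 1) → FractionRing (MvPolynomial ℕ (ZMod p)))
    (hy : ∑ i : Fin (n + 1), algebraMap (MvPolynomial ℕ (ZMod p)) _ (X (i : ℕ)) * y i ^ p = 0) :
    y = 0 := by
  classical
  obtain ⟨b, hb⟩ := IsLocalization.exist_integer_multiples_of_finite
    (nonZeroDivisors (MvPolynomial ℕ (ZMod p))) y
  choose w hw using hb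
  have hb0 : (b : MvPolynomial ℕ (ZMod p)) ≠ 0 := nonZeroDivisors.coe_ne_zero b
  have hinj := IsFractionRing.injective (MvPolynomial ℕ (ZMod p))
    (FractionRing (MvPolynomial ℕ (ZMod p)))
  have hw' : ∀ i, algebraMap (MvPolynomial ℕ (ZMod p)) (FractionRing (MvPolynomial ℕ (ZMod p))) (w i)
      = algebraMap _ _ (b : MvPolynomial ℕ (ZMod p)) * y i := by
    intro i
    rw [hw i, Algebra.smul_def]
  have h1 : ∑ i : Fin (n + 1), X (i : ℕ) * w i ^ p = (0 : MvPolynomial ℕ (ZMod p)) := by
    apply hinj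
    rw [map_sum, map_zero]
    have e : ∀ i : Fin (n + 1), algebraMap (MvPolynomial ℕ (ZMod p))
        (FractionRing (MvPolynomial ℕ (ZMod p))) (X (i : ℕ) * w i ^ p) =
        algebraMap _ _ (b : MvPolynomial ℕ (ZMod p)) ^ p *
          (algebraMap (MvPolynomial ℕ (ZMod p)) _ (X (i : ℕ)) * y i ^ p) := by
      intro i
      rw [map_mul, map_pow, hw' i]; ring
    rw [Finset.sum_congr rfl (fun i _ => e i), ← Finset.mul_sum, hy, mul_zero]
  have h3 : ((p : ℕ) : MvPolynomial ℕ (ZMod p)) = 0 := CharP.cast_eq_zero _ p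
  have hwz : ∀ j : Fin (n + 1), w j = 0 := by
    intro j
    have h4 := congrArg (pderiv (j : ℕ)) h1
    rw [map_sum, map_zero] at h4
    have e : ∀ i : Fin (n + 1), pderiv (j : ℕ) (X (i : ℕ) * w i ^ p) =
        if i = j then w j ^ p else (0 : MvPolynomial ℕ (ZMod p)) := by
      intro i
      rw [Derivation.leibniz, Derivation.leibniz_pow]
      have e1 : (p : ℕ) • (w i ^ (p - 1) • pderiv (j : ℕ) (w i)) = (0 : MvPolynomial ℕ (ZMod p)) := by
        rw [nsmul_eq_mul]
        rw [h3, zero_mul]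
      rw [e1, smul_zero, zero_add, pderiv_X]
      by_cases hij : i = j
      · rw [hij, if_pos rfl, Pi.single_eq_same, smul_eq_mul, mul_one]
      · rw [if_neg hij, Pi.single_eq_of_ne, smul_zero]
        intro hval
        exact hij (Fin.ext hval)
    rw [Finset.sum_congr rfl (fun i _ => e i), Finset.sum_ite_eq' Finset.univ j] at h4
    simp only [Finset.mem_univ, if_true] at h4
    exact pow_eq_zero_iff hp.out.ne_zero |>.mp h4
  funext j
  have h5 := hw' j
  rw [hwz j, map_zero] at h5
  have hb1 : algebraMap (MvPolynomial ℕ (ZMod p)) (FractionRing (MvPolynomial ℕ (ZMod p)))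
      (b : MvPolynomial ℕ (ZMod p)) ≠ 0 := by
    intro h6
    apply hb0
    apply hinj
    rw [h6, map_zero]
  rcases mul_eq_zero.mp h5.symm with h6 | h6
  · exact absurd h6 hb1
  · exact h6


end Pool.Agent.Helper346.CdP
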