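import Pool.Agent.Helper346.Cd.Defs

set_option autoImplicit false

open MvPolynomial

namespace Pool.Agent.Helper346.CdP

/-- Every open normal subgroup of `G` has index a power of `p`. -/
def IsPro (p : ℕ) (G : Type*) [Group G] [TopologicalSpace G] : Prop :=
  ∀ U : Subgroup G, U.Normal → IsOpen (U : Set G) → ∃ m : ℕ, U.index = p ^ m

end Pool.Agent.Helper346.CdP
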