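import Pool.Agent.Helper346.CdP.CI
import Pool.Agent.Helper346.CdP.CK
import Pool.Agent.Helper346.CdP.CL
import Pool.Agent.Helper346.CdP.CM
import Pool.Agent.Helper346.CdP.CO
import Pool.Agent.Helper346.CdP.CP
import Pool.Agent.Helper346.Cd.CJ
import Pool.Agent.Helper346.Cd.CN

set_option autoImplicit false

open MvPolynomial

namespace Pool.Agent.Helper346.CdP

open Pool.Agent.Helper346.Cd

theorem cdLeOne_of {k : Type} [Field k] {p : ℕ} [hp : Fact p.Prime] [CharP k p]
    (hk : ∀ f : Polynomial k, Irreducible f → f.Separable → ¬ p ∣ f.natDegree → f.natDegree = 1) :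
    CdLeOne Gal(SeparableClosure k/k) := by
  have hpro : IsPro p Gal(SeparableClosure k/k) :=
    isPro_gal (fun M _ h => finrank_eq_one_of_prime_to hk M h)
  intro M _ _ hM ht q hq
  exact vanish_torsion_of_finite q (fun M' _ _ _ hM' => vanish_finite hpro M' hM' q hq) M hM ht

theorem no_zero {κ K Ω : Type} [Field κ] (p : ℕ) [hp : Fact p.Prime] [CharP κ p] [Field K] [Field Ω]
    [Algebra (Polynomial κ) K] [IsFractionRing (Polynomial κ) K] [Algebra K Ω]
    [Algebra.IsSeparable K Ω] (E : IntermediateField K Ω)
    (hE : ∀ T : IntermediateField K Ω, T ≤ E → FiniteDimensional K T → ¬ p ∣ Module.finrank K T)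
    (n : ℕ) (a : Fin (n + 1) → κ) (ha : ∀ y : Fin (n + 1) → κ, ∑ i, a i * y i ^ p = 0 → y = 0)
    (G : MvPolynomial (Fin (n + 1)) ℤ) (hG : G.IsHomogeneous p) (x : Fin (n + 1) → E)
    (hx : x ≠ 0) :
    ∑ i, algebraMap K E (algebraMap (Polynomial κ) K (Polynomial.C (a i))) * x i ^ p +
      algebraMap K E (algebraMap (Polynomial κ) K Polynomial.X) * aeval x G ≠ 0 := by
  intro hx0
  let T : IntermediateField K Ω :=
    IntermediateField.adjoin K (Set.range fun i => ((x i : E) : Ω))
  have hTE : T ≤ E := by
    refine IntermediateField.adjoin_le_iff.2 ?_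
    rintro _ ⟨i, rfl⟩
    exact (x i).2
  have : FiniteDimensional K T := by
    have : Finite (Set.range fun i => ((x i : E) : Ω)) := Set.finite_range _
    refine IntermediateField.finiteDimensional_adjoin ?_
    intro y _
    exact Algebra.IsIntegral.isIntegral y
  have h3 := hE T hTE inferInstance
  let ι : κ →+* T := (algebraMap K T).comp ((algebraMap (Polynomial κ) K).comp Polynomial.C)
  let c : T := algebraMap K T (algebraMap (Polynomial κ) K Polynomial.X)
  obtain ⟨O, l, _, _, r, _, hr, hι, hc⟩ := exists_good_place (κ := κ) (E := T) K h3 ι c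
    (fun a => rfl) rfl
  let y : Fin (n + 1) → T := fun i =>
    ⟨((x i : E) : Ω), IntermediateField.subset_adjoin _ _ ⟨i, rfl⟩⟩
  have hy : y ≠ 0 := by
    intro h
    apply hx
    funext i
    have := congrArg (fun t : T => (t : Ω)) (congrFun h i)
    exact Subtype.ext this
  refine anisotropic_of_place n a ha ι c O r hι hc G hG y hy ?_
  apply Subtype.ext
  have h := congrArg (fun t : E => (t : Ω)) hx0
  have hG1 : ((aeval x G : E) : Ω) = aeval (fun i => ((x i : E) : Ω)) G :=
    (MvPolynomial.aeval_algebraMap_apply (A := E) (B := Ω) x G).symm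
  have hG2 : ((aeval y G : T) : Ω) = aeval (fun i => ((y i : T) : Ω)) G :=
    (MvPolynomial.aeval_algebraMap_apply (A := T) (B := Ω) y G).symm
  simp only [IntermediateField.coe_add, IntermediateField.coe_mul, IntermediateField.coe_sum,
    IntermediateField.coe_pow, IntermediateField.coe_zero, hG1] at h
  simp only [IntermediateField.coe_add, IntermediateField.coe_mul, IntermediateField.coe_sum,
    IntermediateField.coe_pow, IntermediateField.coe_zero, hG2]
  exact h

/-- For every prime `p` there is a field of characteristic `p` and cohomological dimension at most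
one, without separable extensions of degree prime to `p`, over which the forms
`∑ aᵢ xᵢᵖ + c G(x)` are anisotropic for all forms `G` of degree `p` with integral coefficients. -/
theorem exists_field (p : ℕ) [hp : Fact p.Prime] : ∃ (k : Type) (_ : Field k), CharP k p ∧
    CdLeOne Gal(SeparableClosure k/k) ∧
    (∀ f : Polynomial k, Irreducible f → f.Separable → ¬ p ∣ f.natDegree → f.natDegree = 1) ∧
    ∃ (a : ℕ → k) (c : k), (∀ i, a i ≠ 0) ∧ c ≠ 0 ∧ c ≠ 1 ∧
      ∀ (n : ℕ) (G : MvPolynomial (Fin (n + 1)) ℤ), G.IsHomogeneous p →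
        ∀ x : Fin (n + 1) → k, x ≠ 0 → ∑ i : Fin (n + 1), a (i : ℕ) * x i ^ p + c * aeval x G ≠ 0 := by
  let κ := FractionRing (MvPolynomial ℕ (ZMod p))
  let K0 := FractionRing (Polynomial κ)
  have : CharP κ p :=
    charP_of_injective_algebraMap (IsFractionRing.injective (MvPolynomial ℕ (ZMod p)) κ) p
  have : CharP K0 p :=
    charP_of_injective_algebraMap (IsFractionRing.injective (Polynomial κ) K0) p
  obtain ⟨E, hE1, hE2⟩ := exists_maximal_prime_to p hp.out K0 (SeparableClosure K0)
  have : CharP E p := charP_of_injective_algebraMap (algebraMap K0 E).injective p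
  refine ⟨E, inferInstance, inferInstance, cdLeOne_of hE2, hE2,
    fun i => algebraMap K0 E (algebraMap (Polynomial κ) K0 (Polynomial.C
      (algebraMap (MvPolynomial ℕ (ZMod p)) κ (X i)))),
    algebraMap K0 E (algebraMap (Polynomial κ) K0 Polynomial.X), ?_, ?_, ?_, ?_⟩
  · intro i
    have h1 : algebraMap (MvPolynomial ℕ (ZMod p)) κ (X i) ≠ 0 := by
      rw [ne_eq, map_eq_zero_iff _ (IsFractionRing.injective (MvPolynomial ℕ (ZMod p)) κ)]
      exact MvPolynomial.X_ne_zero _
    rw [ne_eq, map_eq_zero_iff _ (algebraMap K0 E).injective,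
      map_eq_zero_iff _ (IsFractionRing.injective (Polynomial κ) K0), Polynomial.C_eq_zero]
    exact h1
  · rw [ne_eq, map_eq_zero_iff _ (algebraMap K0 E).injective,
      map_eq_zero_iff _ (IsFractionRing.injective (Polynomial κ) K0)]
    exact Polynomial.X_ne_zero
  · intro h
    have h1 : algebraMap (Polynomial κ) K0 Polynomial.X = 1 := by
      apply (algebraMap K0 E).injective
      rw [h, map_one]
    have h2 : (Polynomial.X : Polynomial κ) = 1 := by
      apply IsFractionRing.injective (Polynomial κ) K0
      rw [h1, map_one]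
    have h3 := congrArg (Polynomial.eval 0) h2
    simp at h3
  · intro n G hG x hx
    exact no_zero p E hE1 n (fun i => algebraMap (MvPolynomial ℕ (ZMod p)) κ (X (i : ℕ)))
      (indep_powers p n) G hG x hx

end Pool.Agent.Helper346.CdP
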