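import Pool.Agent.Helper346.Cd.Defs

set_option autoImplicit false

open MvPolynomial

namespace Pool.Agent.Helper346.CdP

open Pool.Agent.Helper346.Cd

/-- The topological group `G` has cohomological dimension exactly one: it has cohomological
dimension at most one, and `H^1(G, M) ≠ 0` for some discrete torsion `G`-module `M`. -/
def CdEqOne (G : Type) [Group G] [TopologicalSpace G] : Prop :=
  CdLeOne G ∧ ∃ (M : Type) (_ : AddCommGroup M) (_ : DistribMulAction G M),
    IsDiscreteModule G M ∧ (∀ m : M, IsOfFinAddOrder m) ∧ ¬ HSuccVanishes G M 0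

/-- `f = g = 0` is a smooth complete intersection of two quadrics in `ℙ⁵` over `k`: `f` and `g` are
quadratic forms in six variables, and their gradients are linearly independent at every geometric
point of `f = g = 0`. -/
def IsSmoothTwoQuadrics {k : Type*} [Field k] (f g : MvPolynomial (Fin 6) k) : Prop :=
  f.IsHomogeneous 2 ∧ g.IsHomogeneous 2 ∧
    ∀ x : Fin 6 → AlgebraicClosure k, x ≠ 0 → aeval x f = 0 → aeval x g = 0 →
      ∀ s t : AlgebraicClosure k, (∀ i, s * aeval x (pderiv i f) + t * aeval x (pderiv i g) = 0) →
        s = 0 ∧ t = 0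

end Pool.Agent.Helper346.CdP
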