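import Pool.Agent.Helper346.CdP.Field
import Pool.Agent.Helper346.CdP.QDefs
import Pool.Agent.Helper346.Cd.CA

set_option autoImplicit false

open MvPolynomial

namespace Pool.Agent.Helper346.CdP

open Pool.Agent.Helper346.Cd

theorem diff_zero {G M : Type*} [AddCommGroup M] (h : (Fin (0 + 1) → G) → M)
    (x : Fin (0 + 2) → G) : diff 0 h x = h (fun _ => x 1) - h (fun _ => x 0) := by
  have e0 : (fun i : Fin 1 => x ((0 : Fin 2).succAbove i)) = fun _ => x 1 := by
    funext i
    have : i = 0 := Subsingleton.elim (α := Fin 1) _ _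
    subst this
    rfl
  have e1 : (fun i : Fin 1 => x ((1 : Fin 2).succAbove i)) = fun _ => x 0 := by
    funext i
    have : i = 0 := Subsingleton.elim (α := Fin 1) _ _
    subst this
    rfl
  show (∑ j : Fin 2, (-1 : ℤ) ^ (j : ℕ) • h (fun i : Fin 1 => x (j.succAbove i))) = _
  rw [Fin.sum_univ_two, e0, e1]
  simp [sub_eq_add_neg]

theorem not_vanish {k : Type} [Field k] [CharP k 2] (y : k) (hy : ∀ x : k, x ^ 2 + x ≠ y) :
    ∃ (M : Type) (_ : AddCommGroup M) (_ : DistribMulAction Gal(SeparableClosure k/k) M),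
      IsDiscreteModule Gal(SeparableClosure k/k) M ∧ (∀ m : M, IsOfFinAddOrder m) ∧
      ¬ HSuccVanishes Gal(SeparableClosure k/k) M 0 := by
  classical
  set K := SeparableClosure k with hK
  have : CharP K 2 := charP_of_injective_algebraMap (algebraMap k K).injective 2
  have h2 : (2 : K) = 0 := by
    have := CharP.cast_eq_zero K 2
    simpa using this
  obtain ⟨θ, hθ⟩ := IsSepClosed.exists_root_C_mul_X_pow_add_C_mul_X_add_C' (k := K) 2 2
    (1 : K) 1 (-(algebraMap k K y)) (dvd_refl 2) le_rfl one_ne_zero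
  have hθ' : θ ^ 2 + θ = algebraMap k K y := by linear_combination hθ
  have hor : ∀ σ : Gal(K/k), σ θ = θ ∨ σ θ = θ + 1 := by
    intro σ
    have h1 : (σ θ) ^ 2 + σ θ = algebraMap k K y := by
      rw [← map_pow, ← map_add, hθ', AlgEquiv.commutes]
    have h3 : (σ θ - θ) * (σ θ - (θ + 1)) = 0 := by
      linear_combination h1 - hθ' + (θ ^ 2 + θ - σ θ * θ - σ θ) * h2
    rcases mul_eq_zero.1 h3 with h | h
    · exact Or.inl (sub_eq_zero.1 h)
    · exact Or.inr (sub_eq_zero.1 h)
  have hne : θ + 1 ≠ θ := by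
    intro h
    exact one_ne_zero (α := K) (by linear_combination h)
  let φ : Gal(K/k) → ZMod 2 := fun σ => if σ θ = θ then 0 else 1
  have hφ : ∀ g σ, φ (g * σ) = φ g + φ σ := by
    intro g σ
    have hg := hor g
    have hs := hor σ
    have hm : (g * σ) θ = g (σ θ) := rfl
    rcases hs with hs | hs <;> rcases hg with hg | hg
    · simp [φ, hm, hs, hg]
    · simp [φ, hm, hs, hg]
    · simp [φ, hm, hs, hg]
    · have h5 : θ + 1 + 1 = θ := by linear_combination h2
      simp only [φ, hm, hs, map_add, hg, map_one, h5, if_true, if_neg hne]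
      decide
  let act : DistribMulAction Gal(K/k) (ZMod 2) :=
    { smul := fun _ n => n
      one_smul := fun _ => rfl
      mul_smul := fun _ _ _ => rfl
      smul_zero := fun _ => rfl
      smul_add := fun _ _ _ => rfl }
  have hsm : ∀ (g : Gal(K/k)) (m : ZMod 2), g • m = m := fun _ _ => rfl
  refine ⟨ZMod 2, inferInstance, act, ?_, ?_, ?_⟩
  · intro m
    simp only [hsm]
    simp
  · intro m
    exact isOfFinAddOrder_of_finite m
  · intro hv
    have hφc : IsLocallyConstant φ := by
      have h1 : IsLocallyConstant (fun σ : Gal(K/k) => σ θ) := by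
        rw [IsLocallyConstant.iff_eventually_eq]
        intro σ
        have h1 := stabilizer_isOpen_of_isIntegral (K := k) (L := K) θ
        have h2 : Continuous (fun τ : Gal(K/k) => σ⁻¹ * τ) := by fun_prop
        have h3 := (h1.preimage h2).mem_nhds (x := σ) (by simp)
        filter_upwards [h3] with τ hτ
        have h4 : (σ⁻¹ * τ) • θ = θ := hτ
        rw [mul_smul, inv_smul_eq_iff] at h4
        exact h4
      exact h1.comp (fun z => if z = θ then (0 : ZMod 2) else 1)
    have h0 : ∀ x : Fin 1 → Gal(K/k), x = fun _ => x 0 := by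
      intro x
      funext i
      have : i = 0 := Subsingleton.elim (α := Fin 1) _ _
      rw [this]
    have hcoc : IsCochain (G := Gal(K/k)) (0 + 1) (diff 0 (fun x => φ (x 0))) := by
      constructor
      · have : (diff 0 (fun x : Fin (0 + 1) → Gal(K/k) => φ (x 0)))
            = fun x => φ (x 1) - φ (x 0) := by
          funext x
          rw [diff_zero]
        rw [this]
        exact (hφc.comp_continuous (continuous_apply 1)).sub
          (hφc.comp_continuous (continuous_apply 0))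
      · intro g x
        rw [hsm, diff_zero, diff_zero, hφ, hφ]
        ring
    obtain ⟨g, hg, hdg⟩ := hv (diff 0 (fun x => φ (x 0))) hcoc (diff_diff 0 _)
    · have hgc : ∀ x y : Fin 1 → Gal(K/k), g x = g y := by
        intro x y
        have h1 := hg.2 (y 0 * (x 0)⁻¹) x
        rw [hsm] at h1
        rw [← h1]
        congr 1
        rw [h0 y, h0 x]
        simp
      have hd : ∀ σ : Gal(K/k), φ σ = φ 1 := by
        intro σ
        have h1 := congrFun hdg ![1, σ]
        rw [diff_zero, diff_zero, hgc (fun _ => ![1, σ] 1) (fun _ => ![1, σ] 0), sub_self] at h1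
        exact (sub_eq_zero.1 h1.symm)
      have hfix : ∀ σ : Gal(K/k), σ θ = θ := by
        intro σ
        by_contra hσ
        have h1 := hd σ
        simp [φ, hσ] at h1
      have hbot : θ ∈ (⊥ : IntermediateField k K) := by
        rw [InfiniteGalois.mem_bot_iff_fixed]
        exact hfix
      obtain ⟨z, hz⟩ := IntermediateField.mem_bot.1 hbot
      apply hy z
      apply (algebraMap k K).injective
      rw [map_add, map_pow, hz, hθ']

theorem block_zero {K : Type*} [Field K] (α β γ x y : K) (hα : α ≠ 0) (hβ : β ≠ 0)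
    (h1 : x * y = 0) (h2 : α * x ^ 2 + β * y ^ 2 + γ * (x * y) = 0) : x = 0 ∧ y = 0 := by
  rcases mul_eq_zero.1 h1 with h | h
  · subst h
    have h3 : β * y ^ 2 = 0 := by linear_combination h2
    exact ⟨rfl, by simpa [hβ] using h3⟩
  · subst h
    have h3 : α * x ^ 2 = 0 := by linear_combination h2
    exact ⟨by simpa [hα] using h3, rfl⟩

theorem alg_smooth {K : Type*} [Field K] (h2 : (2 : K) = 0) (γ : K) (hγ0 : γ ≠ 0) (hγ1 : γ ≠ 1)
    (α : ℕ → K) (hα : ∀ i, α i ≠ 0) (x : Fin 6 → K) (hx : x ≠ 0) (s t : K)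
    (e0 : s * (α 0 * (2 * x 0) + γ * x 1) + t * x 1 = 0)
    (e1 : s * (α 1 * (2 * x 1) + γ * x 0) + t * x 0 = 0)
    (e2 : s * (α 2 * (2 * x 2) + γ * x 3) + t * (γ * x 3) = 0)
    (e3 : s * (α 3 * (2 * x 3) + γ * x 2) + t * (γ * x 2) = 0)
    (e4 : s * (α 4 * (2 * x 4) + γ * x 5) + t * (γ ^ 2 * x 5) = 0)
    (e5 : s * (α 5 * (2 * x 5) + γ * x 4) + t * (γ ^ 2 * x 4) = 0)
    (hf : α 0 * x 0 ^ 2 + α 1 * x 1 ^ 2 + α 2 * x 2 ^ 2 + α 3 * x 3 ^ 2 + α 4 * x 4 ^ 2
      + α 5 * x 5 ^ 2 + γ * (x 0 * x 1 + x 2 * x 3 + x 4 * x 5) = 0)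
    (hg : x 0 * x 1 + γ * (x 2 * x 3) + γ ^ 2 * (x 4 * x 5) = 0) : s = 0 ∧ t = 0 := by
  by_contra hst
  have d0 : (s * γ + t) * x 1 = 0 := by linear_combination e0 - s * α 0 * x 0 * h2
  have d1 : (s * γ + t) * x 0 = 0 := by linear_combination e1 - s * α 1 * x 1 * h2
  have d2 : (s * γ + t * γ) * x 3 = 0 := by linear_combination e2 - s * α 2 * x 2 * h2
  have d3 : (s * γ + t * γ) * x 2 = 0 := by linear_combination e3 - s * α 3 * x 3 * h2
  have d4 : (s * γ + t * γ ^ 2) * x 5 = 0 := by linear_combination e4 - s * α 4 * x 4 * h2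
  have d5 : (s * γ + t * γ ^ 2) * x 4 = 0 := by linear_combination e5 - s * α 5 * x 5 * h2
  have hγ1' : γ - 1 ≠ 0 := sub_ne_zero.2 hγ1
  have key : ∀ u v : K, s * γ + t * u = 0 → s * γ + t * v = 0 → u - v ≠ 0 → False := by
    intro u v hu hv huv
    have h3 : t * (u - v) = 0 := by linear_combination hu - hv
    have ht : t = 0 := by
      rcases mul_eq_zero.1 h3 with h | h
      · exact h
      · exact absurd h huv
    have hs : s * γ = 0 := by
      rw [ht] at hu
      linear_combination hu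
    have hs' : s = 0 := by
      rcases mul_eq_zero.1 hs with h | h
      · exact h
      · exact absurd h hγ0
    exact hst ⟨hs', ht⟩
  have allzero : x 0 = 0 ∧ x 1 = 0 ∧ x 2 = 0 ∧ x 3 = 0 ∧ x 4 = 0 ∧ x 5 = 0 := by
    by_cases p0 : s * γ + t = 0
    · have q1 : s * γ + t * γ ≠ 0 := fun h => key γ 1 h (by linear_combination p0) hγ1'
      have q2 : s * γ + t * γ ^ 2 ≠ 0 := by
        intro h
        refine key (γ ^ 2) 1 h (by linear_combination p0) ?_
        have : γ ^ 2 - 1 = (γ - 1) ^ 2 := by linear_combination (γ - 1) * h2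
        rw [this]
        exact pow_ne_zero _ hγ1'
      have r3 : x 3 = 0 := (mul_eq_zero.1 d2).resolve_left q1
      have r2 : x 2 = 0 := (mul_eq_zero.1 d3).resolve_left q1
      have r5 : x 5 = 0 := (mul_eq_zero.1 d4).resolve_left q2
      have r4 : x 4 = 0 := (mul_eq_zero.1 d5).resolve_left q2
      rw [r2, r3, r4, r5] at hf hg
      have := block_zero (α 0) (α 1) γ (x 0) (x 1) (hα 0) (hα 1) (by linear_combination hg)
        (by linear_combination hf)
      exact ⟨this.1, this.2, r2, r3, r4, r5⟩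
    · have r1 : x 1 = 0 := (mul_eq_zero.1 d0).resolve_left p0
      have r0 : x 0 = 0 := (mul_eq_zero.1 d1).resolve_left p0
      rw [r0, r1] at hf hg
      by_cases p1 : s * γ + t * γ = 0
      · have q2 : s * γ + t * γ ^ 2 ≠ 0 := by
          intro h
          refine key (γ ^ 2) γ h p1 ?_
          have : γ ^ 2 - γ = γ * (γ - 1) := by ring
          rw [this]
          exact mul_ne_zero hγ0 hγ1'
        have r5 : x 5 = 0 := (mul_eq_zero.1 d4).resolve_left q2
        have r4 : x 4 = 0 := (mul_eq_zero.1 d5).resolve_left q2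
        rw [r4, r5] at hf hg
        have hg' : γ * (x 2 * x 3) = 0 := by linear_combination hg
        have := block_zero (α 2) (α 3) γ (x 2) (x 3) (hα 2) (hα 3)
          ((mul_eq_zero.1 hg').resolve_left hγ0) (by linear_combination hf)
        exact ⟨r0, r1, this.1, this.2, r4, r5⟩
      · have r3 : x 3 = 0 := (mul_eq_zero.1 d2).resolve_left p1
        have r2 : x 2 = 0 := (mul_eq_zero.1 d3).resolve_left p1
        rw [r2, r3] at hf hg
        have hg' : γ ^ 2 * (x 4 * x 5) = 0 := by linear_combination hg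
        have := block_zero (α 4) (α 5) γ (x 4) (x 5) (hα 4) (hα 5)
          ((mul_eq_zero.1 hg').resolve_left (pow_ne_zero _ hγ0)) (by linear_combination hf)
        exact ⟨r0, r1, r2, r3, this.1, this.2⟩
  apply hx
  funext i
  fin_cases i
  · exact allzero.1
  · exact allzero.2.1
  · exact allzero.2.2.1
  · exact allzero.2.2.2.1
  · exact allzero.2.2.2.2.1
  · exact allzero.2.2.2.2.2

theorem smooth_pair {k : Type} [Field k] [CharP k 2] (a : ℕ → k) (c : k) (ha : ∀ i, a i ≠ 0)
    (hc : c ≠ 0) (hc1 : c ≠ 1) :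
    IsSmoothTwoQuadrics (k := k)
      (∑ i : Fin 6, C (a (i : ℕ)) * X i ^ 2 + C c * (X 0 * X 1 + X 2 * X 3 + X 4 * X 5))
      (X 0 * X 1 + C c * (X 2 * X 3) + C (c ^ 2) * (X 4 * X 5)) := by
  have hX : ∀ i : Fin 6, (X i : MvPolynomial (Fin 6) k).IsHomogeneous 1 :=
    fun i => isHomogeneous_X k i
  have hXX : ∀ i j : Fin 6, (X i * X j : MvPolynomial (Fin 6) k).IsHomogeneous 2 :=
    fun i j => (hX i).mul (hX j)
  have hC : ∀ (e : k) {q : MvPolynomial (Fin 6) k}, q.IsHomogeneous 2 →
      (C e * q).IsHomogeneous 2 := by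
    intro e q hq
    have := (isHomogeneous_C (Fin 6) e).mul hq
    simpa using this
  refine ⟨?_, ?_, ?_⟩
  · refine IsHomogeneous.add (IsHomogeneous.sum _ _ _ fun i _ => hC _ ?_)
      (hC _ (((hXX 0 1).add (hXX 2 3)).add (hXX 4 5)))
    rw [pow_two]
    exact hXX i i
  · exact ((hXX 0 1).add (hC _ (hXX 2 3))).add (hC _ (hXX 4 5))
  · intro x hx hf hg s t hst
    set K := AlgebraicClosure k
    have : CharP K 2 := charP_of_injective_algebraMap (algebraMap k K).injective 2
    have h2 : (2 : K) = 0 := by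
      have := CharP.cast_eq_zero K 2
      simpa using this
    have hinj := (algebraMap k K).injective
    set γ : K := algebraMap k K c with hγ
    have hγ0 : γ ≠ 0 := by
      rw [hγ, ne_eq, map_eq_zero]; exact hc
    have hγ1 : γ ≠ 1 := by
      intro h
      apply hc1
      apply hinj
      rw [map_one]; exact h
    have hA : ∀ i, algebraMap k K (a i) ≠ 0 := fun i => by
      rw [ne_eq, map_eq_zero]; exact ha i
    have e0 := hst 0
    have e1 := hst 1
    have e2 := hst 2
    have e3 := hst 3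
    have e4 := hst 4
    have e5 := hst 5
    simp [Fin.sum_univ_six, pderiv_X] at e0 e1 e2 e3 e4 e5 hf hg
    exact alg_smooth h2 γ hγ0 hγ1 (fun i => algebraMap k K (a i)) hA _ hx _ _ e0 e1 e2 e3 e4 e5
      hf hg

theorem quadrics_main : ∃ (k : Type) (_ : Field k), CharP k 2 ∧
    CdEqOne Gal(SeparableClosure k/k) ∧
    ∃ f g : MvPolynomial (Fin 6) k, IsSmoothTwoQuadrics f g ∧
      ¬ ∃ x : Fin 6 → k, x ≠ 0 ∧ eval x f = 0 ∧ eval x g = 0 := by
  have : Fact (Nat.Prime 2) := ⟨Nat.prime_two⟩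
  obtain ⟨k, _, hk, hcd, -, a, c, ha, hc, hc1, han⟩ := exists_field 2
  refine ⟨k, inferInstance, hk, ⟨hcd, ?_⟩, _, _, smooth_pair a c ha hc hc1, ?_⟩
  · refine not_vanish (a 0 * a 1 / c ^ 2) ?_
    intro z hz
    have h2 : (2 : k) = 0 := by
      have := CharP.cast_eq_zero k 2
      simpa using this
    have hG : (X 0 * X 1 : MvPolynomial (Fin 2) ℤ).IsHomogeneous 2 :=
      (isHomogeneous_X ℤ 0).mul (isHomogeneous_X ℤ 1)
    refine han 1 (X 0 * X 1) hG ![c * z / a 0, 1] ?_ ?_
    · intro h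
      have := congrFun h 1
      simp at this
    · simp [Fin.sum_univ_two]
      have h0 := ha 0
      field_simp at hz ⊢
      linear_combination hz + a 0 * a 1 * h2
  · rintro ⟨x, hx, hf, -⟩
    have hG : (X 0 * X 1 + X 2 * X 3 + X 4 * X 5 : MvPolynomial (Fin 6) ℤ).IsHomogeneous 2 :=
      (((isHomogeneous_X ℤ 0).mul (isHomogeneous_X ℤ 1)).add
        ((isHomogeneous_X ℤ 2).mul (isHomogeneous_X ℤ 3))).add
        ((isHomogeneous_X ℤ 4).mul (isHomogeneous_X ℤ 5))
    refine han 5 _ hG x hx ?_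
    rw [← hf]
    simp

end Pool.Agent.Helper346.CdP
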